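import Pool.Agent.H341.GR.Gen

/-!
# A linear group whose set of exponential growth rates is not well-ordered

MP_646035_al asks, for each of four classes of finitely generated groups (linear groups of
exponential growth, lattices in Lie groups, acylindrically hyperbolic groups, mapping class
groups), whether the set of growth rates `E(G)` of every group `G` of the class is well-ordered.

We answer this negatively for class 1 (linear groups of exponential growth). The group is the
lamplighter group `(Z/2)^5 wr Z`, which embeds in `GL_2` of a field of characteristic 2 and is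
metabelian. It has generating sets `S_1, S_2, ...`, each of 96 elements, such that for every `n`
there is `m > n` with `e(G, S_m) < e(G, S_n)`.

Matching with the problem file:
* `wordBall S n` is `B_S(n)`, the set of elements of word length at most `n` over `S` and `S⁻¹`;
* `IsGrowthRate S r` says that `|B_S(n)|^(1/n)` tends to `r`, that is `e(G, S) = r`;
* `growthRates G` is the set `E(G)`;
* `WellOrdered E` says that every nonempty subset of `E` has a least element.
-/

namespace Pool.Agent.Results.MP_646035_al.LinearNotWellOrdered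

open Filter Topology
open scoped commutatorElement

/-- elements of word length at most `n` with respect to `S` and the inverses of `S` -/
def wordBall {Γ : Type} [Group Γ] (S : Finset Γ) (n : ℕ) : Set Γ :=
  {g | ∃ l : List Γ, l.length ≤ n ∧ (∀ x ∈ l, x ∈ S ∨ x⁻¹ ∈ S) ∧ l.prod = g}

/-- `r` is the exponential growth rate of the group with respect to `S` -/
def IsGrowthRate {Γ : Type} [Group Γ] (S : Finset Γ) (r : ℝ) : Prop :=
  Tendsto (fun n : ℕ => ((wordBall S n).ncard : ℝ) ^ ((1 : ℝ) / n)) atTop (𝓝 r)

/-- the set of growth rates with respect to all finite generating sets -/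
def growthRates (Γ : Type) [Group Γ] : Set ℝ :=
  {r | ∃ S : Finset Γ, Subgroup.closure (S : Set Γ) = ⊤ ∧ IsGrowthRate S r}

/-- the set of growth rates with respect to all generating sets with exactly `N` elements -/
def growthRatesOfCard (Γ : Type) [Group Γ] (N : ℕ) : Set ℝ :=
  {r | ∃ S : Finset Γ, S.card = N ∧ Subgroup.closure (S : Set Γ) = ⊤ ∧ IsGrowthRate S r}

/-- every nonempty subset has a least element -/
def WellOrdered (E : Set ℝ) : Prop := ∀ T ⊆ E, T.Nonempty → ∃ x, IsLeast T x

/-- There is a finitely generated metabelian linear group of exponential growth whose set of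
growth rates is not well-ordered, even for generating sets of 96 elements. -/
theorem result :
    ∃ (Γ : Type) (_ : Group Γ) (K : Type) (_ : Field K)
      (φ : Γ →* Matrix.GeneralLinearGroup (Fin 2) K),
      Function.Injective φ ∧
      (∀ a b c d : Γ, Commute ⁅a, b⁆ ⁅c, d⁆) ∧
      Group.FG Γ ∧ (∀ r ∈ growthRates Γ, 1 < r) ∧
      ¬ WellOrdered (growthRatesOfCard Γ 96) ∧ ¬ WellOrdered (growthRates Γ) := by
  obtain ⟨φ, hφ⟩ := H341.GR.linear
  have hrate : ∀ (S : Finset H341.GR.G) (r : ℝ), IsGrowthRate S r ↔ H341.GR.IsRate S r :=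
    fun S r => Iff.rfl
  -- the family of growth rates of the sets `S n`
  set T : Set ℝ := {r | ∃ n, 1 ≤ n ∧ 1 ≤ r ∧ H341.GR.IsRate (H341.GR.S n) r} with hT
  have hTsub : T ⊆ growthRatesOfCard H341.GR.G 96 := by
    rintro r ⟨n, hn, _, hr⟩
    exact ⟨H341.GR.S n, H341.GR.card_S n hn, H341.GR.closure_S n, hr⟩
  have hTne : T.Nonempty := by
    obtain ⟨r, hr1, hr⟩ := H341.GR.exists_rate (H341.GR.S 1)
    exact ⟨r, 1, le_rfl, hr1, hr⟩
  have hTno : ¬ ∃ x, IsLeast T x := by
    rintro ⟨x, ⟨n, hn, hx1, hx⟩, hlb⟩
    obtain ⟨m, hm, r', hr1, hr', hlt⟩ := H341.GR.exists_smaller n hn hx hx1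
    have := hlb ⟨m, by omega, hr1, hr'⟩
    linarith
  have hsub : growthRatesOfCard H341.GR.G 96 ⊆ growthRates H341.GR.G := by
    rintro r ⟨S, _, hS, hr⟩
    exact ⟨S, hS, hr⟩
  refine ⟨H341.GR.G, inferInstance, H341.GR.K, inferInstance, φ, hφ, H341.GR.metabelian,
    ?_, ?_, ?_, ?_⟩
  · rw [Group.fg_iff]
    exact ⟨_, H341.GR.closure_S 1, Finset.finite_toSet _⟩
  · rintro r ⟨S, hS, hr⟩
    obtain ⟨r1, h1, hr1⟩ := H341.GR.exists_rate (H341.GR.S 1)
    have h16 := H341.GR.rate_ge 1 le_rfl hr1 h1
    exact H341.GR.one_lt_rate hS hr1 (by linarith) hr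
  · intro h
    exact hTno (h T hTsub hTne)
  · intro h
    exact hTno (h T (hTsub.trans hsub) hTne)

end Pool.Agent.Results.MP_646035_al.LinearNotWellOrdered
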